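import Pool.Agent.P8H14.PL.M8

set_option autoImplicit false

/-!
# Project GQ: scales which are good together with all the smaller scales down to the square root
-/

open Finset Filter Topology

namespace Pool.Agent.P8H14.GQ

open Pool.Agent.TH823.PS
open Pool.Agent.P8H13.PK
open Pool.Agent.P8H13.GK
open Pool.Agent.P8H14.PL
open Pool.Agent.P8H14.QP (ev_t sav sav_pos sav_mono sav_large log_ev)
open Pool.Agent.P8H14.QP.Len (sav_mul sav_one_le sav_log)

/-- a good scale, with all scales between the square root and the scale -/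
structure GA (P A : ℕ) (y l : ℝ) (N : ℕ) : Prop where
  g1 : 800 * l ≤ Real.log N / 2
  g2 : Real.log N ≤ 18 * l ^ 2
  fam : ∀ N' : ℕ, √(N : ℝ) ≤ N' → N' ≤ N → ∀ p : ℕ, 1 ≤ p → p ≤ P → FLm 1 p A y l N'

/-- **most scales are good** -/
theorem most_GA (P A : ℕ) {ε : ℝ} (hε : 0 < ε) : ∃ c : ℝ, 0 < c ∧
    ∀ (L0 : ℝ) (N₁ : ℕ), Most ε (fun N => N₁ ≤ N ∧ ∃ l : ℝ, L0 ≤ l ∧ GA P A (sav c N) l N) := by
  obtain ⟨c, C, hc, hc8, hC, hmost⟩ := most_LS
  obtain ⟨c1, l1, hc1, hl1, hfam⟩ := famL_all hc hc8 hC 1 A le_rfl P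
  obtain ⟨c', hc', hM⟩ := hmost (min (c1 / 2) (1 / 1600)) (by positivity) ((min_le_right _ _).trans (by norm_num)) (ε / 2)
    (by positivity)
  set c3 : ℝ := c' / (40 * P + 20) with hc3
  have hc30 : 0 < c3 := by positivity
  refine ⟨c3, hc30, fun L0 N₁ => ?_⟩
  refine most_mono (N₁ := max N₁ 16) hε (hM (max L0 l1)) fun N hN hG => ⟨(le_max_left _ _).trans hN, ?_⟩
  obtain ⟨l, hl, hReg, hLn1, hLn2, hLn3, hLn4⟩ := hG
  have hN16 : 16 ≤ N := (le_max_right _ _).trans hN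
  have hlL0 : L0 ≤ l := (le_max_left _ _).trans hl
  have hll1 : l1 ≤ l := (le_max_right _ _).trans hl
  have hl1000 : 1000 ≤ l := hl1.trans hll1
  set Ln : ℝ := Real.log N with hLn
  have hLp : 0 < Ln := by linarith
  have hN0 : (0 : ℝ) < N := by exact_mod_cast (by omega : 0 < N)
  have hlog1 : 1 ≤ Real.log Ln := by
    rw [Real.le_log_iff_exp_le hLp]
    have := Real.exp_one_lt_d9
    linarith
  have h1600 : 800 * l ≤ Ln / 2 := by
    have h1 : min (c1 / 2) (1 / 1600) * Ln ≤ 1 / 1600 * Ln := mul_le_mul_of_nonneg_right (min_le_right _ _) hLp.le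
    have h2 : l * 1 ≤ l * Real.log Ln := mul_le_mul_of_nonneg_left hlog1 (by linarith)
    linarith
  refine ⟨l, hlL0, ⟨h1600, hLn2, fun N' hN1 hN2 p hp hpP => ?_⟩⟩
  have hN'0 : (0 : ℝ) < N' := lt_of_lt_of_le (Real.sqrt_pos.2 hN0) hN1
  have hLn' : Ln / 2 ≤ Real.log N' := by
    have h1 := Real.log_le_log (Real.sqrt_pos.2 hN0) hN1
    rwa [Real.log_sqrt hN0.le] at h1
  have hLn'' : Real.log N' ≤ Ln := Real.log_le_log hN'0 (by exact_mod_cast hN2)
  refine hfam l hll1 hReg N' (by linarith) (by linarith) ?_ p hp hpP (sav c3 N) (sav_one_le hc30.le hN16) ?_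
  · have e1 : Real.log (Real.log N') ≤ Real.log Ln := Real.log_le_log (by linarith) hLn''
    have e2 : l * Real.log (Real.log N') ≤ l * Real.log Ln := mul_le_mul_of_nonneg_left e1 (by linarith)
    have e3 : min (c1 / 2) (1 / 1600) * Ln ≤ c1 / 2 * Ln := mul_le_mul_of_nonneg_right (min_le_left _ _) hLp.le
    have e4 : c1 * (Ln / 2) ≤ c1 * Real.log N' := mul_le_mul_of_nonneg_left hLn' hc1.le
    linarith
  · unfold sav
    apply Real.exp_le_exp.2
    rw [hc3, ← hLn]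
    calc c' / (40 * P + 20) * Ln / Real.log Ln = (c' * Ln / Real.log Ln) / (40 * P + 20) := by ring
      _ ≤ l / (40 * P + 20) := by gcongr

end Pool.Agent.P8H14.GQ
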