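import Pool.Agent.P8H14.GQ.Stm
import Pool.Agent.P8H14.GQ.A1

set_option autoImplicit false

/-!
# Project GQ: one scale, one multiplier
-/

open Finset

namespace Pool.Agent.P8H14.GQ

open Pool.Agent.P8H13.PK (th mo)
open Pool.Agent.P8H14.PL (df Ql FLm)
open Pool.Agent.P8H14.SS (SG)
open Pool.Agent.H373R2.T7 (exI energy)
open Pool.Agent.H560R3.GB (sing)
open Pool.Agent.W93.PG (GoodG)

open Classical in
/-- one scale, one multiplier and shift -/
theorem scale_one (hWSQ : S_WSQ) (hSUB : S_SUB) (hGDG : S_GDG) (V : ℕ) : ∃ (A : ℕ) (l0 : ℝ), ∀ (l : ℝ) (N : ℕ),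
    l0 ≤ l → 800 * l ≤ Real.log N → Real.log N ≤ 18 * l ^ 2 → ∀ (p : ℕ) (y1 D : ℝ), 2 ≤ y1 → 1 ≤ D → D ≤ y1 →
    FLm 1 p A y1 l N → ∀ (x : ℕ) (s : ℕ → ℤ), (energy p x s : ℝ) * N * D ^ (2 * p) ≤ y1 * (x : ℝ) ^ (2 * p) →
    ∀ i : ℤ, i ≠ 0 → ∀ b : ℤ, (((Icc 1 x).filter (fun m => 0 < i * s m + b ∧ i * s m + b ≤ N ∧ Even (i * s m + b) ∧
      ¬ GoodG V N (i * s m + b).toNat)).card : ℝ) ≤ x / D := by
  obtain ⟨l1, hW⟩ := hWSQ
  obtain ⟨A, l2, hA2, hG⟩ := hGDG V
  refine ⟨A, max (max l1 l2) 1, fun l N hl h800 h18 p y1 D hy1 hD1 hDy hFL x s hE i hi b => ?_⟩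
  have hll1 : l1 ≤ l := (le_max_left _ _).trans ((le_max_left _ _).trans hl)
  have hll2 : l2 ≤ l := (le_max_right _ _).trans ((le_max_left _ _).trans hl)
  have hl1 : 1 ≤ l := (le_max_right _ _).trans hl
  have hD0 : 0 < D := by linarith
  set T : Finset ℕ := (Icc 1 x).filter (fun m => 0 < i * s m + b ∧ i * s m + b ≤ N) with hT
  have hTsub : T ⊆ Icc 1 x := filter_subset _ _
  have hbad : (Icc 1 x).filter (fun m => 0 < i * s m + b ∧ i * s m + b ≤ N ∧ Even (i * s m + b) ∧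
      ¬ GoodG V N (i * s m + b).toNat) ⊆ T := by
    intro m hm
    rw [mem_filter] at hm
    rw [hT, mem_filter]
    exact ⟨hm.1, hm.2.1, hm.2.2.1⟩
  rcases le_or_gt (T.card : ℝ) (x / D) with hc | hc
  · exact (by exact_mod_cast card_le_card hbad : _ ≤ (T.card : ℝ)).trans hc
  rw [div_lt_iff₀ hD0] at hc
  obtain ⟨f, hf1, hf2, hf3, hf4⟩ := hSUB p x s T hTsub
  have hu : ∀ a ∈ Icc 1 T.card, |i * s (f a) + (b - N)| ≤ ((1 : ℕ) : ℤ) * N := by
    intro a ha
    have h1 := hf1 a ha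
    rw [hT, mem_filter] at h1
    rw [abs_le]
    constructor <;> push_cast <;> linarith [h1.2.1, h1.2.2]
  have hEu : (energy p T.card (fun a => i * s (f a) + (b - N)) : ℝ) * N ≤ y1 * (T.card : ℝ) ^ (2 * p) := by
    have h1 : (energy p T.card (fun a => i * s (f a) + (b - N)) : ℝ) ≤ energy p x s := by
      exact_mod_cast hf4 i hi (b - N)
    have h2 : (x : ℝ) ^ (2 * p) ≤ D ^ (2 * p) * (T.card : ℝ) ^ (2 * p) := by
      rw [← mul_pow]
      exact pow_le_pow_left₀ (Nat.cast_nonneg _) (by linarith) _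
    have h3 : (energy p T.card (fun a => i * s (f a) + (b - N)) : ℝ) * N * D ^ (2 * p) ≤
        y1 * (T.card : ℝ) ^ (2 * p) * D ^ (2 * p) := by
      calc (energy p T.card (fun a => i * s (f a) + (b - N)) : ℝ) * N * D ^ (2 * p) ≤ energy p x s * N * D ^ (2 * p) := by
            gcongr
        _ ≤ y1 * (x : ℝ) ^ (2 * p) := hE
        _ ≤ y1 * (D ^ (2 * p) * (T.card : ℝ) ^ (2 * p)) := mul_le_mul_of_nonneg_left h2 (by linarith)
        _ = _ := by ring
    exact le_of_mul_le_mul_right h3 (by positivity)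
  have hlog1 : 1 ≤ Real.log N := by linarith
  have hN0 : (0 : ℝ) < N := by
    rcases Nat.eq_zero_or_pos N with h | h
    · subst h
      rw [Nat.cast_zero, Real.log_zero] at hlog1
      linarith
    · exact_mod_cast h
  obtain ⟨w1, w2⟩ := hW l N hll1 h800
  have hLA : (N : ℝ) * Real.log N ^ 2 ≤ N * Real.log N ^ A :=
    mul_le_mul_of_nonneg_left (pow_le_pow_right₀ hlog1 hA2) hN0.le
  have hout := hFL T.card (fun a => i * s (f a) + (b - N)) hu hEu 2 (by exact_mod_cast hy1) (fun _ => 1)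
    ![fun n => ((th (N - n) : ℝ) : ℂ), fun n => ((mo 1 (Ql l) 0 (N - n) : ℝ) : ℂ)] (fun _ => le_rfl) (by
    intro j
    have e : 1 * N / 1 = N := by omega
    rw [e]
    fin_cases j
    · exact w1.trans hLA
    · exact w2.trans hLA)
  have hsub : (Icc 1 x).filter (fun m => 0 < i * s m + b ∧ i * s m + b ≤ N ∧ Even (i * s m + b) ∧
      ¬ GoodG V N (i * s m + b).toNat) ⊆ ((Icc 1 T.card).filter (fun m => ¬ ∀ i_1 : Fin 2, ∀ X : ℕ, 1 * X ≤ 1 * N →
        ‖∑ n ∈ Icc 1 X, (![fun n => ((th (N - n) : ℝ) : ℂ), fun n => ((mo 1 (Ql l) 0 (N - n) : ℝ) : ℂ)] :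
          Fin 2 → ℕ → ℂ) i_1 n * exI (fun n => ((df l n : ℝ) : ℂ)) (((1 : ℕ) : ℤ) * n + (i * s (f m) + (b - N)))‖ ≤
          N / Real.log N ^ A)).image f := by
    intro m hm
    have hmT := hbad hm
    rw [mem_filter] at hm
    obtain ⟨-, g1, g2, g3, g4⟩ := hm
    rw [hf2, mem_image] at hmT
    obtain ⟨a, ha, rfl⟩ := hmT
    rw [mem_image]
    refine ⟨a, ?_, rfl⟩
    rw [mem_filter]
    refine ⟨ha, fun hgood => g4 ?_⟩
    have hm' : (((i * s (f a) + b).toNat : ℕ) : ℤ) = i * s (f a) + b := Int.toNat_of_nonneg g1.le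
    have hev : Even (i * s (f a) + b).toNat := by
      rw [← Int.even_coe_nat, hm']
      exact g3
    apply hG l N hll2 h800 h18 _ (by omega) (by omega) hev
    · intro X hX
      have h1 := hgood 0 X (by omega)
      refine le_trans (le_of_eq ?_) h1
      congr 1
      apply sum_congr rfl
      intro n _
      rw [hm']
      congr 2
      ring
    · intro X hX
      have h1 := hgood 1 X (by omega)
      refine le_trans (le_of_eq ?_) h1
      congr 1
      apply sum_congr rfl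
      intro n _
      rw [hm']
      congr 2
      ring
  calc (((Icc 1 x).filter (fun m => 0 < i * s m + b ∧ i * s m + b ≤ N ∧ Even (i * s m + b) ∧
      ¬ GoodG V N (i * s m + b).toNat)).card : ℝ) ≤ (T.card : ℝ) / y1 := by
        refine le_trans ?_ hout
        exact_mod_cast (card_le_card hsub).trans card_image_le
    _ ≤ x / y1 := by
        have : T.card ≤ x := by
          have := card_le_card hTsub
          rwa [Nat.card_Icc, Nat.add_sub_cancel] at this
        have h2 : (T.card : ℝ) ≤ x := by exact_mod_cast this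
        gcongr
    _ ≤ x / D := by
        apply div_le_div_of_nonneg_left (Nat.cast_nonneg _) hD0 hDy

end Pool.Agent.P8H14.GQ
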