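import Pool.Agent.P8H14.GQ.A2
import Pool.Agent.P8H14.PL.N3

set_option autoImplicit false

/-!
# Project GQ: all multipliers, shifts and smaller scales
-/

open Finset

namespace Pool.Agent.P8H14.GQ

open Pool.Agent.W93.PG (GoodG)

/-- the indices of an exceptional even multiple -/
theorem cover {N Y : ℕ} {y : ℝ} (hY : Y = ⌊y⌋₊) (hy : 1 ≤ y) (V : ℕ) (R : ℕ → Prop)
    (hR : ∀ j : ℕ, 2 ^ j ≤ Y → ∀ n : ℕ, 0 < n → n ≤ N / 2 ^ j → N < 2 ^ (j + 1) * n → Even n →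
      GoodG V (N / 2 ^ j) n → R n) (v : ℤ) (q n : ℕ) (h1 : |((q : ℤ) : ℝ) - v| ≤ y) (h2 : (N : ℝ) ≤ y * q)
    (hn : 0 < n) (hnN : n ≤ N) (hev : Even n) (hqn : q ∣ n) (hnR : ¬ R n) :
    ∃ i ∈ Icc 1 Y, ∃ t ∈ Icc (-(Y : ℤ)) Y, ∃ j ∈ range (Y + 1), 2 ^ j ≤ Y ∧ 0 < (i : ℤ) * v + (i : ℤ) * t ∧
      (i : ℤ) * v + (i : ℤ) * t ≤ ((N / 2 ^ j : ℕ) : ℤ) ∧ Even ((i : ℤ) * v + (i : ℤ) * t) ∧
      ¬ GoodG V (N / 2 ^ j) ((i : ℤ) * v + (i : ℤ) * t).toNat := by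
  have hy0 : 0 ≤ y := by linarith
  obtain ⟨i, rfl⟩ := hqn
  have hq1 : 1 ≤ q := by
    rcases Nat.eq_zero_or_pos q with rfl | h
    · simp at hn
    · exact h
  have hi1 : 1 ≤ i := by
    rcases Nat.eq_zero_or_pos i with rfl | h
    · simp at hn
    · exact h
  have hq0 : (0 : ℝ) < q := by exact_mod_cast hq1
  have hiY : i ≤ Y := by
    rw [hY]
    apply Nat.le_floor
    have e1 : ((q * i : ℕ) : ℝ) ≤ N := by exact_mod_cast hnN
    push_cast at e1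
    have e2 : (q : ℝ) * i ≤ q * y := by linarith
    exact le_of_mul_le_mul_left e2 hq0
  have htY : |(q : ℤ) - v| ≤ Y := by
    have e1 : ((((q : ℤ) - v).natAbs : ℕ) : ℝ) ≤ y := by
      have e2 : ((((q : ℤ) - v).natAbs : ℕ) : ℝ) = |((q : ℤ) : ℝ) - v| := by
        rw [← Int.cast_natCast, Int.natCast_natAbs, Int.cast_abs, Int.cast_sub]
      rw [e2]
      exact h1
    have e3 : ((q : ℤ) - v).natAbs ≤ Y := by
      rw [hY]
      exact Nat.le_floor e1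
    have e4 : |(q : ℤ) - v| = (((q : ℤ) - v).natAbs : ℤ) := (Int.natCast_natAbs _).symm
    rw [e4]
    exact_mod_cast e3
  have hex : ∃ j : ℕ, N < 2 ^ (j + 1) * (q * i) := by
    refine ⟨N, ?_⟩
    have e1 : N < 2 ^ (N + 1) := by
      have := (Nat.lt_two_pow_self (n := N + 1))
      omega
    calc N < 2 ^ (N + 1) := e1
      _ = 2 ^ (N + 1) * 1 := (mul_one _).symm
      _ ≤ 2 ^ (N + 1) * (q * i) := Nat.mul_le_mul_left _ hn
  classical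
  obtain ⟨j, hj⟩ : ∃ j, j = Nat.find hex := ⟨_, rfl⟩
  have hj1 : N < 2 ^ (j + 1) * (q * i) := by rw [hj]; exact Nat.find_spec hex
  have hj2 : 2 ^ j * (q * i) ≤ N := by
    rcases Nat.eq_zero_or_pos j with h0 | h0
    · rw [h0, pow_zero, one_mul]
      exact hnN
    · have h3 : j - 1 < Nat.find hex := by omega
      have h4 := Nat.find_min hex h3
      rw [not_lt, Nat.sub_add_cancel h0] at h4
      exact h4
  have hjY : 2 ^ j ≤ Y := by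
    rw [hY]
    apply Nat.le_floor
    have e1 : (((2 ^ j * (q * i) : ℕ)) : ℝ) ≤ N := by exact_mod_cast hj2
    push_cast at e1
    push_cast
    have hir : (1 : ℝ) ≤ i := by exact_mod_cast hi1
    have e2 : (2 : ℝ) ^ j * q ≤ 2 ^ j * (q * i) := by
      apply mul_le_mul_of_nonneg_left _ (by positivity)
      exact le_mul_of_one_le_right hq0.le hir
    have e3 : (2 : ℝ) ^ j * q ≤ y * q := by linarith
    exact le_of_mul_le_mul_right e3 hq0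
  have hjr : j < Y + 1 := by
    have := (Nat.lt_two_pow_self (n := j))
    omega
  have hval : (i : ℤ) * v + (i : ℤ) * ((q : ℤ) - v) = ((q * i : ℕ) : ℤ) := by push_cast; ring
  have hle : q * i ≤ N / 2 ^ j := by
    rw [Nat.le_div_iff_mul_le (by positivity), mul_comm]
    exact hj2
  rw [abs_le] at htY
  refine ⟨i, mem_Icc.2 ⟨hi1, hiY⟩, (q : ℤ) - v, mem_Icc.2 htY, j, mem_range.2 hjr, hjY, ?_, ?_, ?_, ?_⟩
  · rw [hval]; exact_mod_cast hn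
  · rw [hval]; exact_mod_cast hle
  · rw [hval, Int.even_coe_nat]; exact hev
  · rw [hval, Int.toNat_natCast]
    exact fun hG => hnR (hR j hjY _ hn hle hj1 hev hG)

open Classical in
/-- the count of the exceptional members -/
theorem count {N Y : ℕ} {y D : ℝ} (hY : Y = ⌊y⌋₊) (hy : 2 ≤ y) (hD : D = y ^ 7) (V : ℕ) (R : ℕ → Prop)
    (hR : ∀ j : ℕ, 2 ^ j ≤ Y → ∀ n : ℕ, 0 < n → n ≤ N / 2 ^ j → N < 2 ^ (j + 1) * n → Even n →
      GoodG V (N / 2 ^ j) n → R n) (x : ℕ) (s : ℕ → ℤ)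
    (hS : ∀ j : ℕ, 2 ^ j ≤ Y → ∀ i : ℤ, i ≠ 0 → ∀ b : ℤ, (((Icc 1 x).filter (fun m => 0 < i * s m + b ∧
      i * s m + b ≤ ((N / 2 ^ j : ℕ) : ℤ) ∧ Even (i * s m + b) ∧ ¬ GoodG V (N / 2 ^ j) (i * s m + b).toNat)).card : ℝ) ≤ x / D) :
    (((Icc 1 x).filter (fun m => ∃ q : ℕ, |((q : ℤ) : ℝ) - s m| ≤ y ∧ (N : ℝ) ≤ y * q ∧
      ∃ n : ℕ, 0 < n ∧ n ≤ N ∧ Even n ∧ q ∣ n ∧ ¬ R n)).card : ℝ) ≤ x / y := by
  set B : ℕ × ℤ × ℕ → Finset ℕ := fun u => (Icc 1 x).filter (fun m => 0 < (u.1 : ℤ) * s m + (u.1 : ℤ) * u.2.1 ∧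
      (u.1 : ℤ) * s m + (u.1 : ℤ) * u.2.1 ≤ ((N / 2 ^ u.2.2 : ℕ) : ℤ) ∧ Even ((u.1 : ℤ) * s m + (u.1 : ℤ) * u.2.1) ∧
      ¬ GoodG V (N / 2 ^ u.2.2) ((u.1 : ℤ) * s m + (u.1 : ℤ) * u.2.1).toNat) with hB
  set I : Finset (ℕ × ℤ × ℕ) := (Icc 1 Y) ×ˢ (Icc (-(Y : ℤ)) Y) ×ˢ ((range (Y + 1)).filter (fun j => 2 ^ j ≤ Y)) with hI
  have hsub : (Icc 1 x).filter (fun m => ∃ q : ℕ, |((q : ℤ) : ℝ) - s m| ≤ y ∧ (N : ℝ) ≤ y * q ∧
      ∃ n : ℕ, 0 < n ∧ n ≤ N ∧ Even n ∧ q ∣ n ∧ ¬ R n) ⊆ I.biUnion B := by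
    intro m hm
    rw [mem_filter] at hm
    obtain ⟨hm1, q, h1, h2, n, hn, hnN, hev, hqn, hnR⟩ := hm
    obtain ⟨i, hi, t, ht, j, hj, g1, g2, g3, g4, g5⟩ := cover hY (by linarith) V R hR (s m) q n h1 h2 hn hnN hev hqn hnR
    rw [mem_biUnion]
    refine ⟨(i, t, j), ?_, ?_⟩
    · rw [hI, mem_product, mem_product, mem_filter]
      exact ⟨hi, ht, hj, g1⟩
    · rw [hB]
      simp only [mem_filter]
      exact ⟨hm1, g2, g3, g4, g5⟩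
  have hY0 : (Y : ℝ) ≤ y := by rw [hY]; exact Nat.floor_le (by linarith)
  have hYn : (0 : ℝ) ≤ Y := Nat.cast_nonneg _
  have hy0 : 0 < y := by linarith
  have hD0 : 0 < D := by rw [hD]; positivity
  have hcardI : (I.card : ℝ) ≤ 6 * y ^ 3 := by
    have h1 : I.card ≤ Y * ((2 * Y + 1) * (Y + 1)) := by
      rw [hI, card_product, card_product, Nat.card_Icc, Int.card_Icc]
      have e1 : ((Y : ℤ) + 1 - (-(Y : ℤ))).toNat = 2 * Y + 1 := by omega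
      rw [e1, Nat.add_sub_cancel]
      apply Nat.mul_le_mul_left
      apply Nat.mul_le_mul_left
      exact (card_filter_le _ _).trans (by rw [card_range])
    have h2 : (I.card : ℝ) ≤ Y * ((2 * Y + 1) * (Y + 1)) := by exact_mod_cast h1
    refine h2.trans ?_
    calc (Y : ℝ) * ((2 * Y + 1) * (Y + 1)) ≤ y * ((2 * y + y) * (y + y)) := by gcongr <;> linarith
      _ = 6 * y ^ 3 := by ring
  have hcard : (((Icc 1 x).filter (fun m => ∃ q : ℕ, |((q : ℤ) : ℝ) - s m| ≤ y ∧ (N : ℝ) ≤ y * q ∧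
      ∃ n : ℕ, 0 < n ∧ n ≤ N ∧ Even n ∧ q ∣ n ∧ ¬ R n)).card : ℝ) ≤ ∑ u ∈ I, ((B u).card : ℝ) := by
    have h1 := (card_le_card hsub).trans card_biUnion_le
    exact_mod_cast h1
  have hB2 : ∀ u ∈ I, ((B u).card : ℝ) ≤ x / D := by
    intro u hu
    rw [hI, mem_product, mem_product, mem_filter, mem_Icc] at hu
    exact hS u.2.2 hu.2.2.2 (u.1 : ℤ) (by exact_mod_cast (by omega : u.1 ≠ 0)) _
  refine hcard.trans ((sum_le_card_nsmul _ _ _ hB2).trans ?_)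
  rw [nsmul_eq_mul]
  have hx0 : (0 : ℝ) ≤ x := Nat.cast_nonneg x
  have hy3 : 6 ≤ y ^ 3 := by
    calc (6 : ℝ) ≤ 2 ^ 3 := by norm_num
      _ ≤ y ^ 3 := pow_le_pow_left₀ (by norm_num) hy 3
  calc (I.card : ℝ) * (x / D) ≤ 6 * y ^ 3 * (x / D) := mul_le_mul_of_nonneg_right hcardI (by positivity)
    _ ≤ y ^ 3 * y ^ 3 * (x / D) := by gcongr
    _ = x / y := by
        rw [hD]
        field_simp

end Pool.Agent.P8H14.GQ
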