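import Pool.Agent.P8H14.GQ.A3
import Pool.Agent.Results.MP_92f640_nt.StructuredLargeModuli

set_option autoImplicit false

/-!
# Project GQ: most scales
-/

open Finset Filter Topology Polynomial

namespace Pool.Agent.P8H14.GQ

open Pool.Agent.TH823.PS
open Pool.Agent.H373R2.T7 (exI energy)
open Pool.Agent.W93.PG (GoodG WinP win_count)
open Pool.Agent.P8H14.PL
open Pool.Agent.P8H14.QP (sav sav_pos sav_mono sav_large log_ev)
open Pool.Agent.P8H14.QP.Len (sav_mul sav_one_le sav_log)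
open Pool.Agent.Results.MP_92f640_nt.StructuredLargeModuli (Rep rep_of)

lemma sav_pow (c : ℝ) (N k : ℕ) : sav c N ^ k = sav (c * k) N := by
  unfold sav
  rw [← Real.exp_nat_mul]
  congr 1
  ring

/-- the weighted number of the representations in all initial segments, with a power of the logarithm saved -/
def Wt (V n : ℕ) : Prop := ∀ z : ℕ, z < n → |∑ k ∈ Icc 1 z, ArithmeticFunction.vonMangoldt k *
  ArithmeticFunction.vonMangoldt (n - k) - Pool.Agent.H560R3.GB.sing n * z| ≤ n / Real.log n ^ V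

lemma goodG_mono {V V' X m : ℕ} (h : V ≤ V') (hX : 1 ≤ Real.log X) (hG : GoodG V' X m) : GoodG V X m := by
  intro y hy
  refine (hG y hy).trans ?_
  apply div_le_div_of_nonneg_left (Nat.cast_nonneg _) (by positivity)
  exact pow_le_pow_right₀ hX h

lemma wt_of {V X m : ℕ} (h2 : 2 ≤ Real.log X) (hm1 : 2 ≤ m) (hmX : m ≤ X) (hXm : (X : ℝ) ≤ 2 * m)
    (hG : GoodG (V + 1) X m) : Wt V m := by
  intro z hz
  have h1 := hG z hz
  have e : ∑ k ∈ Icc 1 z, ArithmeticFunction.vonMangoldt k * ArithmeticFunction.vonMangoldt (m - k) =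
      ∑ n ∈ Icc 1 z, ArithmeticFunction.vonMangoldt n * Pool.Agent.H373R2.T7.lamI ((m : ℤ) - n) := by
    apply sum_congr rfl
    intro k hk
    rw [mem_Icc] at hk
    rw [Pool.Agent.W93.PG.lam_sub m k (by omega)]
  rw [e]
  refine h1.trans ?_
  have hmr : (1 : ℝ) < m := by exact_mod_cast hm1
  have hlm : 0 < Real.log m := Real.log_pos hmr
  have hlX : Real.log m ≤ Real.log X := Real.log_le_log (by linarith) (by exact_mod_cast hmX)
  have hlX0 : 0 < Real.log X := by linarith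
  rw [div_le_div_iff₀ (by positivity) (by positivity)]
  have h3 : Real.log m ^ V ≤ Real.log X ^ V := pow_le_pow_left₀ hlm.le hlX V
  calc (X : ℝ) * Real.log m ^ V ≤ (2 * m) * Real.log X ^ V := by gcongr
    _ = m * (2 * Real.log X ^ V) := by ring
    _ ≤ m * (Real.log X * Real.log X ^ V) := by gcongr
    _ = m * Real.log X ^ (V + 1) := by ring

/-- the families -/
def FamU (P : ℕ) (𝓕 : Finset ℤ[X]) (y : ℝ) (N x : ℕ) (s : ℕ → ℤ) : Prop :=
  (∃ p : ℕ, 1 ≤ p ∧ p ≤ P ∧ (energy p x s : ℝ) * N ≤ y * (x : ℝ) ^ (2 * p)) ∨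
    ∃ f ∈ 𝓕, 1 ≤ f.natDegree ∧ (N : ℝ) ≤ y * (x : ℝ) ^ f.natDegree ∧ ∃ b : ℤ, ∀ m ∈ Icc 1 x, s m = b + f.eval (m : ℤ)

/-- an exceptional even multiple of a modulus near `v` -/
def BadV (R : ℕ → Prop) (y : ℝ) (N : ℕ) (v : ℤ) : Prop :=
  ∃ q : ℕ, |((q : ℤ) : ℝ) - v| ≤ y ∧ (N : ℝ) ≤ y * q ∧ ∃ n : ℕ, 0 < n ∧ n ≤ N ∧ Even n ∧ q ∣ n ∧ ¬ R n

open Classical in
/-- **most scales** -/
theorem main_of (hWSQ : S_WSQ) (hSUB : S_SUB) (hGDG : S_GDG) (P V : ℕ) (𝓕 : Finset ℤ[X]) {ε η : ℝ} (hε : 0 < ε) (hη : 0 < η) :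
    ∃ c : ℝ, 0 < c ∧ Most η (fun N => ∀ (x : ℕ) (s : ℕ → ℤ), FamU P 𝓕 (sav c N) N x s →
      (((Icc 1 x).filter (fun m => BadV (fun n => Rep ε n ∧ Wt V n) (sav c N) N (s m))).card : ℝ) ≤ x / sav c N) := by
  obtain ⟨P', C1, hC1, hPP, hord⟩ := fam_order P 𝓕
  obtain ⟨A, l0, hone⟩ := scale_one hWSQ hSUB hGDG (1 + 1 + 4 + (V + 1))
  obtain ⟨c3, hc3, hmost⟩ := most_GA P' A (ε := η / 2) (by positivity)
  obtain ⟨X0, hwin⟩ := win_count (min ε (1 / 200)) (lt_min hε (by norm_num)) 1 1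
  set K : ℕ := 14 * P' + 8 with hK
  have hK0 : (0 : ℝ) < K := by rw [hK]; positivity
  set c : ℝ := c3 / K with hc
  have hc0 : 0 < c := by positivity
  obtain ⟨N1, hN1, hN1'⟩ := sav_large hc0 (max C1 2)
  obtain ⟨N2, hN2⟩ := log_ev (max (Real.exp (4 * c)) (2 * X0 + 20))
  refine ⟨c, hc0, ?_⟩
  refine most_mono (N₁ := max N1 N2) hη (hmost l0 16) fun N hN hG x s hF => ?_
  obtain ⟨hN16, l, hl, hGA⟩ := hG
  have hNN1 : N1 ≤ N := (le_max_left _ _).trans hN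
  have hNN2 : N2 ≤ N := (le_max_right _ _).trans hN
  set y : ℝ := sav c N with hy
  set y1 : ℝ := sav c3 N with hy1
  have hyC : max C1 2 ≤ y := hN1' N hNN1
  have hyC1 : C1 ≤ y := (le_max_left _ _).trans hyC
  have hy2 : 2 ≤ y := (le_max_right _ _).trans hyC
  have hy0 : 0 < y := by linarith
  have hyK : y ^ K = y1 := by
    rw [hy, sav_pow, hc, hy1]
    congr 1
    field_simp
  set Ln : ℝ := Real.log N with hLn
  have hLbig := hN2 N hNN2
  have hLe : Real.exp (4 * c) ≤ Ln := (le_max_left _ _).trans hLbig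
  have hLX : 2 * (X0 : ℝ) + 20 ≤ Ln := (le_max_right _ _).trans hLbig
  have hX0n : (0 : ℝ) ≤ X0 := Nat.cast_nonneg _
  have hLp : 0 < Ln := by linarith
  have hN0 : (0 : ℝ) < N := by exact_mod_cast (by omega : 0 < N)
  have hNe : (N : ℝ) = Real.exp Ln := (Real.exp_log hN0).symm
  have hsq : √(N : ℝ) = Real.exp (Ln / 2) := by
    rw [Real.sqrt_eq_rpow, hNe, ← Real.exp_mul]
    congr 1
    ring
  have hye : y ≤ Real.exp (Ln / 4) := by
    rw [hy]
    unfold sav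
    apply Real.exp_le_exp.2
    have h4 : 4 * c ≤ Real.log Ln := by
      rw [Real.le_log_iff_exp_le hLp]
      exact hLe
    rw [← hLn, div_le_iff₀ (by linarith)]
    calc c * Ln = Ln / 4 * (4 * c) := by ring
      _ ≤ Ln / 4 * Real.log Ln := mul_le_mul_of_nonneg_left h4 (by positivity)
  set Y : ℕ := ⌊y⌋₊ with hY
  have hYy : (Y : ℝ) ≤ y := Nat.floor_le hy0.le
  -- the smaller scales
  have hscale : ∀ j : ℕ, 2 ^ j ≤ Y → √(N : ℝ) ≤ ((N / 2 ^ j : ℕ) : ℝ) ∧ N / 2 ^ j ≤ N := by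
    intro j hj
    refine ⟨?_, Nat.div_le_self _ _⟩
    have h2j : ((2 : ℝ) ^ j) ≤ y := by
      refine le_trans ?_ hYy
      exact_mod_cast hj
    have h2j0 : (0 : ℝ) < 2 ^ j := by positivity
    have h1 : (N : ℝ) / 2 ^ j < ((N / 2 ^ j : ℕ) : ℝ) + 1 := by
      have := Nat.lt_div_mul_add (a := N) (b := 2 ^ j) (by positivity)
      rw [div_lt_iff₀ h2j0]
      have h3 : (N : ℝ) < ((N / 2 ^ j * 2 ^ j + 2 ^ j : ℕ) : ℝ) := by exact_mod_cast this
      push_cast at h3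
      linarith
    have h3 : Real.exp (3 * Ln / 4) ≤ (N : ℝ) / 2 ^ j := by
      rw [le_div_iff₀ h2j0]
      calc Real.exp (3 * Ln / 4) * 2 ^ j ≤ Real.exp (3 * Ln / 4) * Real.exp (Ln / 4) :=
            mul_le_mul_of_nonneg_left (h2j.trans hye) (Real.exp_pos _).le
        _ = N := by rw [← Real.exp_add, hNe]; congr 1; ring
    have h4 : Real.exp (3 * Ln / 4) = Real.exp (Ln / 2) * Real.exp (Ln / 4) := by rw [← Real.exp_add]; congr 1; ring
    have h5 : 2 ≤ Real.exp (Ln / 4) := hy2.trans hye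
    have h6 : 1 ≤ Real.exp (Ln / 2) := Real.one_le_exp (by positivity)
    have h7 : Real.exp (Ln / 2) * 2 ≤ Real.exp (Ln / 2) * Real.exp (Ln / 4) :=
      mul_le_mul_of_nonneg_left h5 (Real.exp_pos _).le
    rw [hsq]
    linarith
  have hlogj : ∀ j : ℕ, 2 ^ j ≤ Y → Ln / 2 ≤ Real.log ((N / 2 ^ j : ℕ) : ℝ) ∧ Real.log ((N / 2 ^ j : ℕ) : ℝ) ≤ Ln := by
    intro j hj
    obtain ⟨h1, h2⟩ := hscale j hj
    have h3 : (0 : ℝ) < ((N / 2 ^ j : ℕ) : ℝ) := lt_of_lt_of_le (Real.sqrt_pos.2 hN0) h1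
    constructor
    · have h4 := Real.log_le_log (Real.sqrt_pos.2 hN0) h1
      rwa [Real.log_sqrt hN0.le] at h4
    · exact Real.log_le_log h3 (by exact_mod_cast h2)
  -- the energy
  obtain ⟨p, hp1, hp2, hpE⟩ := hord (∑ m ∈ Icc 1 x, (s m).natAbs) N x y s (by omega) hy0.le (by
    refine ⟨fun m hm => ?_, hF⟩
    have h1 : (s m).natAbs ≤ ∑ m ∈ Icc 1 x, (s m).natAbs := single_le_sum (f := fun m => (s m).natAbs) (fun _ _ => Nat.zero_le _) hm
    have h2 : (s m).natAbs ≤ (∑ m ∈ Icc 1 x, (s m).natAbs) * N :=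
      h1.trans (Nat.le_mul_of_pos_right _ (by omega))
    calc |s m| = ((s m).natAbs : ℤ) := (Int.natCast_natAbs _).symm
      _ ≤ _ := by exact_mod_cast h2)
  have hy1' : 1 ≤ y := by linarith
  have hD : y ^ 7 ≤ y1 := by
    rw [← hyK]
    exact pow_le_pow_right₀ hy1' (by omega)
  have hD1 : 1 ≤ y ^ 7 := one_le_pow₀ hy1'
  have hy12 : 2 ≤ y1 := by
    refine hy2.trans ?_
    rw [← hyK]
    exact le_self_pow₀ hy1' (by omega)
  refine count (D := y ^ 7) hY hy2 rfl (1 + 1 + 4 + (V + 1)) (fun n => Rep ε n ∧ Wt V n) ?_ x s ?_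
  · intro j hj n hn hnj hnN hev hG
    obtain ⟨h1, h2⟩ := hscale j hj
    obtain ⟨h3, h4⟩ := hlogj j hj
    have hexp : Ln / 2 + 1 ≤ √(N : ℝ) := by rw [hsq]; exact Real.add_one_le_exp _
    have hXj : X0 ≤ N / 2 ^ j := by
      have : (X0 : ℝ) ≤ ((N / 2 ^ j : ℕ) : ℝ) := by linarith
      exact_mod_cast this
    have hn2 : ((N / 2 ^ j : ℕ) : ℝ) < 2 * n := by
      have e1 : N / 2 ^ j < 2 * n := by
        rw [Nat.div_lt_iff_lt_mul (by positivity)]
        calc N < 2 ^ (j + 1) * n := hnN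
          _ = 2 * n * 2 ^ j := by ring
      exact_mod_cast e1
    have hn3 : 3 ≤ n := by
      have : (3 : ℝ) ≤ n := by linarith
      exact_mod_cast this
    refine ⟨rep_of ε n hn3 ?_, wt_of (by linarith) (by omega) hnj hn2.le (goodG_mono (by omega) (by linarith) hG)⟩
    intro y₁ y₂ h12 hy2' hΔ
    refine hwin (N / 2 ^ j) hXj n hnj ?_ (goodG_mono (by omega) (by linarith) hG) y₁ y₂ h12 hy2' hΔ
    rw [pow_one, div_le_iff₀ (by linarith)]
    have hn0 : (0 : ℝ) ≤ n := Nat.cast_nonneg n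
    have e2 : (n : ℝ) * 2 ≤ n * Real.log ((N / 2 ^ j : ℕ) : ℝ) := mul_le_mul_of_nonneg_left (by linarith) hn0
    linarith
  · intro j hj i hi b
    obtain ⟨h1, h2⟩ := hscale j hj
    obtain ⟨h3, h4⟩ := hlogj j hj
    refine hone l (N / 2 ^ j) hl ?_ ?_ p y1 (y ^ 7) hy12 hD1 hD (hGA.fam _ h1 h2 p hp1 hp2) x s ?_ i hi b
    · exact hGA.g1.trans h3
    · exact h4.trans hGA.g2
    · have e1 : ((N / 2 ^ j : ℕ) : ℝ) ≤ N := by exact_mod_cast h2
      have e2 : (y ^ 7) ^ (2 * p) ≤ y ^ (14 * P') := by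
        rw [← pow_mul]
        exact pow_le_pow_right₀ hy1' (by
          have : p ≤ P' := hp2
          omega)
      calc (energy p x s : ℝ) * ((N / 2 ^ j : ℕ) : ℝ) * (y ^ 7) ^ (2 * p) ≤ (energy p x s : ℝ) * N * y ^ (14 * P') := by
            gcongr
        _ ≤ (C1 * y * (x : ℝ) ^ (2 * p)) * y ^ (14 * P') := mul_le_mul_of_nonneg_right hpE (by positivity)
        _ ≤ (y * y * (x : ℝ) ^ (2 * p)) * y ^ (14 * P') := by gcongr
        _ = y ^ (14 * P' + 2) * (x : ℝ) ^ (2 * p) := by ring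
        _ ≤ y1 * (x : ℝ) ^ (2 * p) := by
            apply mul_le_mul_of_nonneg_right _ (by positivity)
            rw [← hyK]
            exact pow_le_pow_right₀ hy1' (by omega)

end Pool.Agent.P8H14.GQ
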