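import Pool.Agent.P8H14.GQ.A4
import Pool.Agent.P8H4.GQ.Sub
import Pool.Agent.P8H4.GQ.Wsq
import Pool.Agent.P8H89.GQ.Ref
import Pool.Agent.P8H52.GQ.Sng
import Pool.Agent.P8H55.GQ.Gdg

set_option autoImplicit false

/-!
# Project GQ: the theorem
-/

open Finset Polynomial

namespace Pool.Agent.P8H14.GQ

open Pool.Agent.P8H14.QP (sav)
open Pool.Agent.TH823.PS (Most)
open Pool.Agent.Results.MP_92f640_nt.StructuredLargeModuli (Rep)

open Classical in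
/-- **most scales** -/
theorem main (P V : ℕ) (𝓕 : Finset ℤ[X]) {ε η : ℝ} (hε : 0 < ε) (hη : 0 < η) :
    ∃ c : ℝ, 0 < c ∧ Most η (fun N => ∀ (x : ℕ) (s : ℕ → ℤ), FamU P 𝓕 (sav c N) N x s →
      (((Icc 1 x).filter (fun m => BadV (fun n => Rep ε n ∧ Wt V n) (sav c N) N (s m))).card : ℝ) ≤ x / sav c N) :=
  main_of Pool.Agent.P8H4.GQ.wsq Pool.Agent.P8H4.GQ.sub
    (Pool.Agent.P8H55.GQ.gdg Pool.Agent.P8H89.GQ.ref Pool.Agent.P8H52.GQ.sng) P V 𝓕 hε hη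

end Pool.Agent.P8H14.GQ
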