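import Pool.Agent.P8H14.PL.M8
import Pool.Agent.P8H14.SS.S3
import Pool.Agent.W93.PG5

set_option autoImplicit false

/-!
# Project GQ: Goldbach representations of the multiples of large moduli in the quasi power range (statements)

Goal (row MP_92f640_nt). At most scales `N`, with `y = N ^ (c / log log N)`: for every family of integers with small
additive energy, all but a proportion `1 / y` of the members `v` are such that ALL the moduli `q ≥ N / y`,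
`|q - v| ≤ y`, have no exceptional even multiples `n ≤ N`. So far (starting files) `y` is a power of `log N`.

`th n = log n` for primes (`0` otherwise), `mo 1 Q 0 n = ∑_{r ≤ Q} μ(r) c_r(n) / φ(r)` (the model of the primes, a function
of the residue of `n` modulo the product `Pr Q` of the primes `≤ Q`), `df l n = th n - mo 1 (Ql l) 0 n`
(`Pool.Agent.P8H14.PL.df_eq`), `Ql l = ⌊exp(l/2)⌋`. `SG h` is the singular series of the tuple `h`, `sing m` the one of the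
Goldbach problem. The packages may assume each other: prove e.g. `theorem gdg : S_REF → S_SNG → S_GDG`.
-/

namespace Pool.Agent.P8H14.GQ

open Finset
open Pool.Agent.P8H13.PK (th mo)
open Pool.Agent.P8H14.PL (df Ql)
open Pool.Agent.P8H14.SS (SG)
open Pool.Agent.H373R2.T7 (exI energy)
open Pool.Agent.H560R3.GB (sing)
open Pool.Agent.W93.PG (GoodG)

/-- (REF, 150 lines) Reflection. Proof: `M(n) = mo 1 Q 0 n` depends on the divisibility of `n` by the primes `≤ Q` only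
(`Pool.Agent.P8H14.PL.mo_per`, and similarly `M a = M b` if `Pr Q ∣ a + b`). So with `u = K Pr Q - X ≥ 0`:
`∑_{1 ≤ n ≤ X} M(n) M(s - n) = ∑_{t < X} M(t + u) M(t + u + s)` (`t + u = K Pr Q - n`). This is the sum of
`Pool.Agent.P8H14.SS.mo_HL` for the pair `h = (u, u + s)`; there the hypothesis `h i ≤ exp L` is used in `card_badset` only,
for the differences `|h i - h j|`: copy `card_badset`, `sum_ss`, `mo_HL` with the hypothesis
`∀ i j, h i - h j ≤ exp L` (natural subtraction). Finally `SG (u, u + s) = SG (0, s)` factor by factor. -/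
def S_REF : Prop := ∃ C : ℝ, 0 < C ∧ ∀ (Q s X : ℕ) (L : ℝ), 1 ≤ L → 1 ≤ Q → 1 ≤ s → (s : ℝ) ≤ Real.exp L → X < s →
  |∑ n ∈ Icc 1 X, mo 1 Q 0 n * mo 1 Q 0 (s - n) - SG ![0, s] * X| ≤
    X * (Real.exp (C * L ^ (1 / 4 : ℝ)) * (Q : ℝ) ^ (-(1 / 4) : ℝ)) + 2 * (Q : ℝ) ^ 4

/-- (SNG, 80 lines) The factor of `SG (0, s)` at `2` is `2`, at `p > 2` it is `1 - 1/(p-1)²` times `(p-1)/(p-2)` if
`p ∣ s`. Use `Pool.Agent.P8H14.SS.tendsto_SG`; `C₂` is the infimum, so the limit, of the decreasing finite products. -/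
def S_SNG : Prop := ∀ s : ℕ, 1 ≤ s → Even s → SG ![0, s] = sing s

/-- (WSQ, 60 lines) The second is `Pool.Agent.P8H13.PK.mo_sq` (see its use in `Pool.Agent.P8H14.PL.df_sq`). -/
def S_WSQ : Prop := ∃ l0 : ℝ, ∀ (l : ℝ) (N : ℕ), l0 ≤ l → 800 * l ≤ Real.log N →
  (∑ n ∈ Icc 1 N, ‖((th (N - n) : ℝ) : ℂ)‖ ^ 2 ≤ N * Real.log N ^ 2) ∧
  (∑ n ∈ Icc 1 N, ‖((mo 1 (Ql l) 0 (N - n) : ℝ) : ℂ)‖ ^ 2 ≤ N * Real.log N ^ 2)

/-- (SUB, 80 lines) Subfamilies. Enumerate `T` (e.g. `Finset.orderEmbOfFin`). -/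
def S_SUB : Prop := ∀ (p x : ℕ) (s : ℕ → ℤ) (T : Finset ℕ), T ⊆ Icc 1 x → ∃ f : ℕ → ℕ,
  (∀ a ∈ Icc 1 T.card, f a ∈ T) ∧ T = (Icc 1 T.card).image f ∧ Set.InjOn f (Icc 1 T.card : Finset ℕ) ∧
  ∀ i : ℤ, i ≠ 0 → ∀ b : ℤ, energy p T.card (fun a => i * s (f a) + b) ≤ energy p x s

/-- (GDG, 250 lines; `S_REF → S_SNG → S_GDG`) From the model to Goldbach pairs, at one scale, for one even `m`. Proof, with
`E = N / log^A N`: for `y < m` (substitute `n = N - n'`) the hypothesis H1 (twice) gives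
`|∑_{n ≤ y} th n · df (m - n)| ≤ 2E`, and H2 gives `|∑_{m - y ≤ k < m} M(k) df(m - k)| ≤ 2E`, that is
`|∑_{n ≤ y} df(n) M(m - n)| ≤ 2E`. So `∑_{n ≤ y} th n · th(m - n) = ∑_{n ≤ y} M(n) M(m - n) + O(4E)`, and `S_REF` (with
`L = log N`, `Q = Ql l`; compare `Pool.Agent.P8H14.PL.scale_HL` for the size of the error, `pow_exp`) and `S_SNG` give the
main term. `th` against `Λ`: the prime powers contribute `≤ 4 √m log² m` (`Pool.Agent.W93.PG.wn_le`: `pp`, `sum_pp`). -/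
def S_GDG : Prop := ∀ V : ℕ, ∃ (A : ℕ) (l0 : ℝ), 2 ≤ A ∧ ∀ (l : ℝ) (N : ℕ), l0 ≤ l → 800 * l ≤ Real.log N →
  Real.log N ≤ 18 * l ^ 2 → ∀ m : ℕ, 1 ≤ m → m ≤ N → Even m →
  (∀ X : ℕ, X ≤ N → ‖∑ n ∈ Icc 1 X, ((th (N - n) : ℝ) : ℂ) *
    exI (fun k => ((df l k : ℝ) : ℂ)) (((1 : ℕ) : ℤ) * n + ((m : ℤ) - N))‖ ≤ N / Real.log N ^ A) →
  (∀ X : ℕ, X ≤ N → ‖∑ n ∈ Icc 1 X, ((mo 1 (Ql l) 0 (N - n) : ℝ) : ℂ) *
    exI (fun k => ((df l k : ℝ) : ℂ)) (((1 : ℕ) : ℤ) * n + ((m : ℤ) - N))‖ ≤ N / Real.log N ^ A) →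
  GoodG V N m

end Pool.Agent.P8H14.GQ
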